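import Pool.Agent.BE01.Stmts

/-!
# BE01, module DIF: the difference of two powers near a smooth curve
-/

namespace Pool.Agent.BE01.H13

open Set Filter Topology Pool.Agent.BE01
open scoped InnerProductSpace

noncomputable section

section ring

variable {X : Type} [NormedCommRing X]

theorem pow_bd (M : ℝ) (hM : 0 ≤ M) (k : ℕ) : ∃ C, 0 ≤ C ∧ ∀ w x : X, ‖w‖ ≤ M → ‖x‖ ≤ M →
    ‖(w + x) ^ k‖ ≤ C := by
  induction k with
  | zero => exact ⟨‖(1 : X)‖, norm_nonneg _, fun w x _ _ => by rw [pow_zero]⟩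
  | succ k ih =>
    obtain ⟨C, hC, h⟩ := ih
    refine ⟨C * (M + M), by positivity, fun w x hw hx => ?_⟩
    rw [pow_succ]
    refine (norm_mul_le _ _).trans ?_
    have h1 : ‖w + x‖ ≤ M + M := (norm_add_le _ _).trans (add_le_add hw hx)
    exact mul_le_mul (h w x hw hx) h1 (norm_nonneg _) hC

theorem pow_lip (M : ℝ) (hM : 0 ≤ M) (k : ℕ) : ∃ C, 0 ≤ C ∧ ∀ w x x' : X, ‖w‖ ≤ M → ‖x‖ ≤ M →
    ‖x'‖ ≤ M → ‖(w + x) ^ k - (w + x') ^ k‖ ≤ C * ‖x - x'‖ := by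
  induction k with
  | zero => exact ⟨0, le_rfl, fun w x x' _ _ _ => by simp⟩
  | succ k ih =>
    obtain ⟨C, hC, h⟩ := ih
    obtain ⟨D, hD, hb⟩ := pow_bd (X := X) M hM k
    refine ⟨(M + M) * C + D, by positivity, fun w x x' hw hx hx' => ?_⟩
    have e : (w + x) ^ (k + 1) - (w + x') ^ (k + 1) =
        (w + x) * ((w + x) ^ k - (w + x') ^ k) + (x - x') * (w + x') ^ k := by ring
    rw [e]
    have h1 : ‖w + x‖ ≤ M + M := (norm_add_le _ _).trans (add_le_add hw hx)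
    have h2 : ‖(w + x) * ((w + x) ^ k - (w + x') ^ k)‖ ≤ (M + M) * (C * ‖x - x'‖) :=
      (norm_mul_le _ _).trans (mul_le_mul h1 (h w x x' hw hx hx') (norm_nonneg _) (by positivity))
    have h3 : ‖(x - x') * (w + x') ^ k‖ ≤ ‖x - x'‖ * D :=
      (norm_mul_le _ _).trans (mul_le_mul_of_nonneg_left (hb w x' hw hx') (norm_nonneg _))
    calc _ ≤ (M + M) * (C * ‖x - x'‖) + ‖x - x'‖ * D := norm_add_le_of_le h2 h3
      _ = _ := by ring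

theorem pow_quad [NormedAlgebra ℝ X] (M : ℝ) (hM : 0 ≤ M) (k : ℕ) : ∃ C, 0 ≤ C ∧
    ∀ w x x' : X, ‖w‖ ≤ M → ‖x‖ ≤ M → ‖x'‖ ≤ M →
    ‖(w + x) ^ k - (w + x') ^ k - (k : ℝ) • (w ^ (k - 1) * (x - x'))‖ ≤
      C * ((‖x‖ + ‖x'‖) * ‖x - x'‖) := by
  induction k with
  | zero => exact ⟨0, le_rfl, fun w x x' _ _ _ => by simp⟩
  | succ k ih =>
    obtain ⟨C, hC, h⟩ := ih
    obtain ⟨D, hD, hb⟩ := pow_bd (X := X) M hM (k - 1)
    obtain ⟨L, hL, hl⟩ := pow_lip (X := X) M hM k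
    refine ⟨(M + M) * C + k * D + L, by positivity, fun w x x' hw hx hx' => ?_⟩
    have e : (w + x) ^ (k + 1) - (w + x') ^ (k + 1) -
        ((k + 1 : ℕ) : ℝ) • (w ^ (k + 1 - 1) * (x - x')) =
        (w + x) * ((w + x) ^ k - (w + x') ^ k - (k : ℝ) • (w ^ (k - 1) * (x - x'))) +
        (k : ℝ) • (x * (w ^ (k - 1) * (x - x'))) + (x - x') * ((w + x') ^ k - w ^ k) := by
      rw [Nat.add_sub_cancel]
      have e1 : (k : ℝ) • (w * (w ^ (k - 1) * (x - x'))) = (k : ℝ) • (w ^ k * (x - x')) := by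
        rcases Nat.eq_zero_or_pos k with rfl | hk
        · simp
        · rw [← mul_assoc, ← pow_succ', Nat.sub_add_cancel hk]
      have e2 : (w + x) * ((k : ℝ) • (w ^ (k - 1) * (x - x'))) =
          (k : ℝ) • (w * (w ^ (k - 1) * (x - x'))) + (k : ℝ) • (x * (w ^ (k - 1) * (x - x'))) := by
        rw [mul_smul_comm, add_mul, smul_add]
      rw [mul_sub (w + x) _ ((k : ℝ) • (w ^ (k - 1) * (x - x'))), e2, e1]
      push_cast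
      rw [add_smul, one_smul]
      ring
    rw [e]
    have h1 : ‖w + x‖ ≤ M + M := (norm_add_le _ _).trans (add_le_add hw hx)
    have h2 : ‖(w + x) * ((w + x) ^ k - (w + x') ^ k - (k : ℝ) • (w ^ (k - 1) * (x - x')))‖ ≤
        (M + M) * (C * ((‖x‖ + ‖x'‖) * ‖x - x'‖)) :=
      (norm_mul_le _ _).trans (mul_le_mul h1 (h w x x' hw hx hx') (norm_nonneg _) (by positivity))
    have h3 : ‖(k : ℝ) • (x * (w ^ (k - 1) * (x - x')))‖ ≤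
        k * D * ((‖x‖ + ‖x'‖) * ‖x - x'‖) := by
      rw [norm_smul, Real.norm_natCast, mul_assoc]
      refine mul_le_mul_of_nonneg_left ?_ (Nat.cast_nonneg k)
      have hw' : ‖w ^ (k - 1)‖ ≤ D := by
        have := hb w 0 hw (by simpa using hM)
        simpa using this
      calc ‖x * (w ^ (k - 1) * (x - x'))‖ ≤ ‖x‖ * (‖w ^ (k - 1)‖ * ‖x - x'‖) :=
            (norm_mul_le _ _).trans
              (mul_le_mul_of_nonneg_left (norm_mul_le _ _) (norm_nonneg _))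
        _ ≤ (‖x‖ + ‖x'‖) * (D * ‖x - x'‖) := by
            have := norm_nonneg x'
            gcongr
            linarith
        _ = _ := by ring
    have h4 : ‖(x - x') * ((w + x') ^ k - w ^ k)‖ ≤ L * ((‖x‖ + ‖x'‖) * ‖x - x'‖) := by
      have hl' : ‖(w + x') ^ k - w ^ k‖ ≤ L * ‖x'‖ := by
        have := hl w x' 0 hw hx' (by simpa using hM)
        simpa using this
      calc ‖(x - x') * ((w + x') ^ k - w ^ k)‖ ≤ ‖x - x'‖ * (L * ‖x'‖) :=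
            (norm_mul_le _ _).trans (mul_le_mul_of_nonneg_left hl' (norm_nonneg _))
        _ ≤ ‖x - x'‖ * (L * (‖x‖ + ‖x'‖)) := by
            have := norm_nonneg x
            gcongr
            linarith
        _ = _ := by ring
    calc _ ≤ (M + M) * (C * ((‖x‖ + ‖x'‖) * ‖x - x'‖)) + k * D * ((‖x‖ + ‖x'‖) * ‖x - x'‖) +
          L * ((‖x‖ + ‖x'‖) * ‖x - x'‖) := norm_add_le_of_le (norm_add_le_of_le h2 h3) h4
      _ = _ := by ring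

end ring

section alg

variable {X Y H : Type} [NormedCommRing X] [NormedAlgebra ℝ X] [NormedAddCommGroup Y]
  [NormedSpace ℝ Y] [NormedAddCommGroup H] [InnerProductSpace ℝ H] (A : Alg X Y H)

theorem mH_e (x x' : X) : A.mH x (A.e x') = A.e (x * x') := by
  change A.mH x (A.j (A.i x')) = A.j (A.i (x * x'))
  rw [← A.j_mY, A.mY_i]

theorem j_i (x : X) : A.j (A.i x) = A.e x := rfl

theorem B_exp (w : X) (y : Y) : A.B (A.i w + y) (A.i w + y) =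
    A.e (w ^ 2) + (2 : ℝ) • A.mH w (A.j y) + A.B y y := by
  simp only [map_add, add_apply]
  rw [A.B_symm y (A.i w), A.B_i, A.B_i, j_i, mH_e, sq, two_smul]
  abel

/-- identity in `Y` -/
theorem id1 (m : ℕ) (w0 w1 x x' : X) (y y' : Y) :
    pw1 A (m + 2) (w0 + x) (A.i w1 + y) - pw1 A (m + 2) (w0 + x') (A.i w1 + y') =
    (A.mY (((m + 2 : ℕ) : ℝ) • w0 ^ (m + 1)) (y - y') +
      A.mY ((((m + 2 : ℕ) : ℝ) * (((m + 2 : ℕ) : ℝ) - 1)) • (w0 ^ m * w1)) (A.i (x - x'))) +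
    ((m + 2 : ℕ) : ℝ) • (A.mY ((w0 + x) ^ (m + 1) - (w0 + x') ^ (m + 1) -
        ((m + 1 : ℕ) : ℝ) • (w0 ^ m * (x - x'))) (A.i w1) +
      A.mY ((w0 + x) ^ (m + 1) - (w0 + x') ^ (m + 1)) y +
      A.mY ((w0 + x') ^ (m + 1) - w0 ^ (m + 1)) (y - y')) := by
  have e1 : A.mY (w0 ^ m * (x - x')) (A.i w1) = A.mY (w0 ^ m * w1) (A.i (x - x')) := by
    rw [A.mY_i, A.mY_i]
    congr 1
    ring
  unfold pw1
  rw [show m + 2 - 1 = m + 1 by omega]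
  simp only [map_add, map_sub, map_smul, add_apply,
    sub_apply, smul_apply]
  rw [e1]
  simp only [map_sub]
  push_cast
  module

/-- identity in `H` -/
theorem id2 (m : ℕ) (w0 w1 w2 x x' : X) (y y' : Y) (h h' : H) :
    pw2 A (m + 2) (w0 + x) (A.i w1 + y) (A.e w2 + h) -
      pw2 A (m + 2) (w0 + x') (A.i w1 + y') (A.e w2 + h') =
    (A.mH (((m + 2 : ℕ) : ℝ) • w0 ^ (m + 1)) (h - h') +
      (2 : ℝ) • A.mH ((((m + 2 : ℕ) : ℝ) * (((m + 2 : ℕ) : ℝ) - 1)) • (w0 ^ m * w1))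
        (A.j (y - y')) +
      A.mH ((((m + 2 : ℕ) : ℝ) * (((m + 2 : ℕ) : ℝ) - 1)) • (w0 ^ m * w2) +
        (((m + 2 : ℕ) : ℝ) * (((m + 2 : ℕ) : ℝ) - 1) * (((m + 2 : ℕ) : ℝ) - 2)) •
          (w0 ^ (m - 1) * w1 ^ 2)) (A.e (x - x'))) +
    (((m + 2 : ℕ) : ℝ) • (A.mH ((w0 + x) ^ (m + 1) - (w0 + x') ^ (m + 1) -
        ((m + 1 : ℕ) : ℝ) • (w0 ^ m * (x - x'))) (A.e w2) +
      A.mH ((w0 + x) ^ (m + 1) - (w0 + x') ^ (m + 1)) h +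
      A.mH ((w0 + x') ^ (m + 1) - w0 ^ (m + 1)) (h - h')) +
    (((m + 2 : ℕ) : ℝ) * (((m + 2 : ℕ) : ℝ) - 1)) •
      (A.mH ((w0 + x) ^ m - (w0 + x') ^ m - (m : ℝ) • (w0 ^ (m - 1) * (x - x')))
        (A.e (w1 ^ 2)) +
      (2 : ℝ) • (A.mH (((w0 + x) ^ m - (w0 + x') ^ m) * w1) (A.j y) +
        A.mH (((w0 + x') ^ m - w0 ^ m) * w1) (A.j (y - y'))) +
      A.mH ((w0 + x) ^ m - (w0 + x') ^ m) (A.B y y) +
      A.mH ((w0 + x') ^ m) (A.B (y - y') y + A.B y' (y - y')))) := by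
  have e1 : A.mH (w0 ^ m * (x - x')) (A.e w2) = A.mH (w0 ^ m * w2) (A.e (x - x')) := by
    rw [mH_e, mH_e]
    congr 1
    ring
  have e2 : A.mH (w0 ^ (m - 1) * (x - x')) (A.e (w1 ^ 2)) =
      A.mH (w0 ^ (m - 1) * w1 ^ 2) (A.e (x - x')) := by
    rw [mH_e, mH_e]
    congr 1
    ring
  have e3 : ∀ z : H, ∀ u : X, A.mH u (A.mH w1 z) = A.mH (u * w1) z := fun z u =>
    (A.mul_mH u w1 z).symm
  have e4 : A.B y y - A.B y' y' = A.B (y - y') y + A.B y' (y - y') := by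
    simp only [map_sub, sub_apply]
    abel
  rw [← e4]
  unfold pw2
  rw [show m + 2 - 1 = m + 1 by omega, show m + 2 - 2 = m by omega, B_exp, B_exp]
  simp only [map_add, map_sub, map_smul, sub_mul, add_apply,
    sub_apply, smul_apply, e3]
  rw [e1, e2]
  simp only [map_sub]
  push_cast
  module

end alg

section main

variable {X Y H : Type} [NormedCommRing X] [NormedAlgebra ℝ X] [NormedAddCommGroup Y]
  [NormedSpace ℝ Y] [NormedAddCommGroup H] [InnerProductSpace ℝ H] (A : Alg X Y H)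

theorem mY_le {u : X} {v : Y} {a b : ℝ} (ha : ‖u‖ ≤ a) (hb : ‖v‖ ≤ b) :
    ‖A.mY u v‖ ≤ a * b :=
  (A.nY u v).trans (mul_le_mul ha hb (norm_nonneg _) ((norm_nonneg _).trans ha))

theorem mH_le {u : X} {v : H} {a b : ℝ} (ha : ‖u‖ ≤ a) (hb : ‖v‖ ≤ b) :
    ‖A.mH u v‖ ≤ a * b :=
  (A.nH u v).trans (mul_le_mul ha hb (norm_nonneg _) ((norm_nonneg _).trans ha))

theorem up {c p q s d t : ℝ} (hc : 0 ≤ c) (hq0 : 0 ≤ q) (hp : p ≤ s) (hq : q ≤ d)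
    (hs : 0 ≤ s) (ht : t ≤ c * (p * q)) : t ≤ c * (s * d) :=
  ht.trans (mul_le_mul_of_nonneg_left (mul_le_mul hp hq hq0 hs) hc)

/-- the remainder in `Y` -/
theorem rem1 (m : ℕ) (M : ℝ) (hM : 0 ≤ M) : ∃ C, 0 ≤ C ∧ ∀ (w0 w1 x x' : X) (y y' : Y)
    (s d : ℝ), ‖w0‖ ≤ M → ‖w1‖ ≤ M → ‖x‖ ≤ M → ‖x'‖ ≤ M → ‖x‖ + ‖x'‖ ≤ s → ‖y‖ ≤ s →
    ‖x'‖ ≤ s → ‖x - x'‖ ≤ d → ‖y - y'‖ ≤ d →
    ‖((m + 2 : ℕ) : ℝ) • (A.mY ((w0 + x) ^ (m + 1) - (w0 + x') ^ (m + 1) -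
        ((m + 1 : ℕ) : ℝ) • (w0 ^ m * (x - x'))) (A.i w1) +
      A.mY ((w0 + x) ^ (m + 1) - (w0 + x') ^ (m + 1)) y +
      A.mY ((w0 + x') ^ (m + 1) - w0 ^ (m + 1)) (y - y'))‖ ≤ C * (s * d) := by
  obtain ⟨Q, hQ, hq⟩ := pow_quad (X := X) M hM (m + 1)
  obtain ⟨L, hL, hl⟩ := pow_lip (X := X) M hM (m + 1)
  refine ⟨((m + 2 : ℕ) : ℝ) * (Q * (‖A.i‖ * M) + L + L), by positivity, ?_⟩
  intro w0 w1 x x' y y' s d hw0 hw1 hx hx' h1 h2 h3 h4 h5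
  have hs : 0 ≤ s := (norm_nonneg _).trans h2
  have hl' : ‖(w0 + x') ^ (m + 1) - w0 ^ (m + 1)‖ ≤ L * ‖x'‖ := by
    have := hl w0 x' 0 hw0 hx' (by simpa using hM)
    simpa using this
  have hi : ‖A.i w1‖ ≤ ‖A.i‖ * M :=
    (A.i.le_opNorm w1).trans (mul_le_mul_of_nonneg_left hw1 (norm_nonneg _))
  have k1 : ‖A.mY ((w0 + x) ^ (m + 1) - (w0 + x') ^ (m + 1) -
        ((m + 1 : ℕ) : ℝ) • (w0 ^ m * (x - x'))) (A.i w1)‖ ≤ Q * (‖A.i‖ * M) * (s * d) := by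
    refine up (p := ‖x‖ + ‖x'‖) (q := ‖x - x'‖) (by positivity) (norm_nonneg _) h1 h4 hs
      ((mY_le A (hq w0 x x' hw0 hx hx') hi).trans (le_of_eq ?_))
    ring
  have k2 : ‖A.mY ((w0 + x) ^ (m + 1) - (w0 + x') ^ (m + 1)) y‖ ≤ L * (s * d) := by
    refine up (p := ‖y‖) (q := ‖x - x'‖) hL (norm_nonneg _) h2 h4 hs
      ((mY_le A (hl w0 x x' hw0 hx hx') le_rfl).trans (le_of_eq ?_))
    ring
  have k3 : ‖A.mY ((w0 + x') ^ (m + 1) - w0 ^ (m + 1)) (y - y')‖ ≤ L * (s * d) := by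
    refine up (p := ‖x'‖) (q := ‖y - y'‖) hL (norm_nonneg _) h3 h5 hs
      ((mY_le A hl' le_rfl).trans (le_of_eq ?_))
    ring
  rw [norm_smul, Real.norm_natCast, mul_assoc]
  refine mul_le_mul_of_nonneg_left ?_ (Nat.cast_nonneg _)
  calc _ ≤ Q * (‖A.i‖ * M) * (s * d) + L * (s * d) + L * (s * d) :=
        norm_add_le_of_le (norm_add_le_of_le k1 k2) k3
    _ = _ := by ring

/-- the remainder in `H` -/
theorem rem2 (m : ℕ) (M : ℝ) (hM : 0 ≤ M) : ∃ C, 0 ≤ C ∧ ∀ (w0 w1 w2 x x' : X) (y y' : Y)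
    (h h' : H) (s d : ℝ), ‖w0‖ ≤ M → ‖w1‖ ≤ M → ‖w2‖ ≤ M → ‖x‖ ≤ M → ‖x'‖ ≤ M → ‖y‖ ≤ M →
    ‖x‖ + ‖x'‖ ≤ s → ‖y‖ ≤ s → ‖y'‖ ≤ s → ‖h‖ ≤ s → ‖x'‖ ≤ s → ‖x - x'‖ ≤ d → ‖y - y'‖ ≤ d →
    ‖h - h'‖ ≤ d →
    ‖((m + 2 : ℕ) : ℝ) • (A.mH ((w0 + x) ^ (m + 1) - (w0 + x') ^ (m + 1) -
        ((m + 1 : ℕ) : ℝ) • (w0 ^ m * (x - x'))) (A.e w2) +
      A.mH ((w0 + x) ^ (m + 1) - (w0 + x') ^ (m + 1)) h +
      A.mH ((w0 + x') ^ (m + 1) - w0 ^ (m + 1)) (h - h')) +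
    (((m + 2 : ℕ) : ℝ) * (((m + 2 : ℕ) : ℝ) - 1)) •
      (A.mH ((w0 + x) ^ m - (w0 + x') ^ m - (m : ℝ) • (w0 ^ (m - 1) * (x - x')))
        (A.e (w1 ^ 2)) +
      (2 : ℝ) • (A.mH (((w0 + x) ^ m - (w0 + x') ^ m) * w1) (A.j y) +
        A.mH (((w0 + x') ^ m - w0 ^ m) * w1) (A.j (y - y'))) +
      A.mH ((w0 + x) ^ m - (w0 + x') ^ m) (A.B y y) +
      A.mH ((w0 + x') ^ m) (A.B (y - y') y + A.B y' (y - y')))‖ ≤ C * (s * d) := by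
  obtain ⟨Q, hQ, hq⟩ := pow_quad (X := X) M hM (m + 1)
  obtain ⟨L, hL, hl⟩ := pow_lip (X := X) M hM (m + 1)
  obtain ⟨Q', hQ', hq'⟩ := pow_quad (X := X) M hM m
  obtain ⟨L', hL', hl'⟩ := pow_lip (X := X) M hM m
  obtain ⟨N, hN, hn⟩ := pow_bd (X := X) M hM m
  have hcf : 0 ≤ ((m + 2 : ℕ) : ℝ) * (((m + 2 : ℕ) : ℝ) - 1) := by
    push_cast
    have : (0 : ℝ) ≤ m := Nat.cast_nonneg m
    nlinarith
  refine ⟨((m + 2 : ℕ) : ℝ) * (Q * (‖A.e‖ * M) + L + L) +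
    ((m + 2 : ℕ) : ℝ) * (((m + 2 : ℕ) : ℝ) - 1) * (Q' * (‖A.e‖ * (M * M)) +
      2 * (L' * M * ‖A.j‖ + L' * M * ‖A.j‖) + L' * M + 2 * N),
    add_nonneg (by positivity) (mul_nonneg hcf (by positivity)), ?_⟩
  intro w0 w1 w2 x x' y y' h h' s d hw0 hw1 hw2 hx hx' hy h1 h2 h2' h3 h4 h5 h6 h7
  have hs : 0 ≤ s := (norm_nonneg _).trans h2
  have hd : 0 ≤ d := (norm_nonneg _).trans h5
  have hl0 : ‖(w0 + x') ^ (m + 1) - w0 ^ (m + 1)‖ ≤ L * ‖x'‖ := by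
    have := hl w0 x' 0 hw0 hx' (by simpa using hM)
    simpa using this
  have hl0' : ‖(w0 + x') ^ m - w0 ^ m‖ ≤ L' * ‖x'‖ := by
    have := hl' w0 x' 0 hw0 hx' (by simpa using hM)
    simpa using this
  have he2 : ‖A.e w2‖ ≤ ‖A.e‖ * M :=
    (A.e.le_opNorm w2).trans (mul_le_mul_of_nonneg_left hw2 (norm_nonneg _))
  have he1 : ‖A.e (w1 ^ 2)‖ ≤ ‖A.e‖ * (M * M) := by
    refine (A.e.le_opNorm _).trans (mul_le_mul_of_nonneg_left ?_ (norm_nonneg _))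
    rw [sq]
    exact (norm_mul_le _ _).trans (mul_le_mul hw1 hw1 (norm_nonneg _) hM)
  have k1 : ‖A.mH ((w0 + x) ^ (m + 1) - (w0 + x') ^ (m + 1) -
        ((m + 1 : ℕ) : ℝ) • (w0 ^ m * (x - x'))) (A.e w2)‖ ≤ Q * (‖A.e‖ * M) * (s * d) := by
    refine up (p := ‖x‖ + ‖x'‖) (q := ‖x - x'‖) (by positivity) (norm_nonneg _) h1 h5 hs
      ((mH_le A (hq w0 x x' hw0 hx hx') he2).trans (le_of_eq ?_))
    ring
  have k2 : ‖A.mH ((w0 + x) ^ (m + 1) - (w0 + x') ^ (m + 1)) h‖ ≤ L * (s * d) := by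
    refine up (p := ‖h‖) (q := ‖x - x'‖) hL (norm_nonneg _) h3 h5 hs
      ((mH_le A (hl w0 x x' hw0 hx hx') le_rfl).trans (le_of_eq ?_))
    ring
  have k3 : ‖A.mH ((w0 + x') ^ (m + 1) - w0 ^ (m + 1)) (h - h')‖ ≤ L * (s * d) := by
    refine up (p := ‖x'‖) (q := ‖h - h'‖) hL (norm_nonneg _) h4 h7 hs
      ((mH_le A hl0 le_rfl).trans (le_of_eq ?_))
    ring
  have k4 : ‖A.mH ((w0 + x) ^ m - (w0 + x') ^ m - (m : ℝ) • (w0 ^ (m - 1) * (x - x')))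
        (A.e (w1 ^ 2))‖ ≤ Q' * (‖A.e‖ * (M * M)) * (s * d) := by
    refine up (p := ‖x‖ + ‖x'‖) (q := ‖x - x'‖) (by positivity) (norm_nonneg _) h1 h5 hs
      ((mH_le A (hq' w0 x x' hw0 hx hx') he1).trans (le_of_eq ?_))
    ring
  have k5 : ‖A.mH (((w0 + x) ^ m - (w0 + x') ^ m) * w1) (A.j y)‖ ≤
      L' * M * ‖A.j‖ * (s * d) := by
    have g1 : ‖((w0 + x) ^ m - (w0 + x') ^ m) * w1‖ ≤ L' * ‖x - x'‖ * M :=
      (norm_mul_le _ _).trans (mul_le_mul (hl' w0 x x' hw0 hx hx') hw1 (norm_nonneg _)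
        (by positivity))
    refine up (p := ‖y‖) (q := ‖x - x'‖) (by positivity) (norm_nonneg _) h2 h5 hs
      ((mH_le A g1 (A.j.le_opNorm y)).trans (le_of_eq ?_))
    ring
  have k6 : ‖A.mH (((w0 + x') ^ m - w0 ^ m) * w1) (A.j (y - y'))‖ ≤
      L' * M * ‖A.j‖ * (s * d) := by
    have g1 : ‖((w0 + x') ^ m - w0 ^ m) * w1‖ ≤ L' * ‖x'‖ * M :=
      (norm_mul_le _ _).trans (mul_le_mul hl0' hw1 (norm_nonneg _) (by positivity))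
    refine up (p := ‖x'‖) (q := ‖y - y'‖) (by positivity) (norm_nonneg _) h4 h6 hs
      ((mH_le A g1 (A.j.le_opNorm (y - y'))).trans (le_of_eq ?_))
    ring
  have k7 : ‖A.mH ((w0 + x) ^ m - (w0 + x') ^ m) (A.B y y)‖ ≤ L' * M * (s * d) := by
    have g1 : ‖A.B y y‖ ≤ ‖y‖ * M :=
      (A.nB y y).trans (mul_le_mul_of_nonneg_left hy (norm_nonneg _))
    refine up (p := ‖y‖) (q := ‖x - x'‖) (by positivity) (norm_nonneg _) h2 h5 hs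
      ((mH_le A (hl' w0 x x' hw0 hx hx') g1).trans (le_of_eq ?_))
    ring
  have k8 : ‖A.mH ((w0 + x') ^ m) (A.B (y - y') y + A.B y' (y - y'))‖ ≤ 2 * N * (s * d) := by
    have g1 : ‖A.B (y - y') y + A.B y' (y - y')‖ ≤ d * s + s * d :=
      norm_add_le_of_le ((A.nB _ _).trans (mul_le_mul h6 h2 (norm_nonneg _) hd))
        ((A.nB _ _).trans (mul_le_mul h2' h6 (norm_nonneg _) hs))
    refine (mH_le A (hn w0 x' hw0 hx') g1).trans (le_of_eq ?_)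
    ring
  have k56 : ‖(2 : ℝ) • (A.mH (((w0 + x) ^ m - (w0 + x') ^ m) * w1) (A.j y) +
        A.mH (((w0 + x') ^ m - w0 ^ m) * w1) (A.j (y - y')))‖ ≤
      2 * (L' * M * ‖A.j‖ + L' * M * ‖A.j‖) * (s * d) := by
    rw [norm_smul, Real.norm_ofNat, mul_assoc]
    refine mul_le_mul_of_nonneg_left ?_ zero_le_two
    calc _ ≤ L' * M * ‖A.j‖ * (s * d) + L' * M * ‖A.j‖ * (s * d) := norm_add_le_of_le k5 k6
      _ = _ := by ring
  have t1 : ‖((m + 2 : ℕ) : ℝ) • (A.mH ((w0 + x) ^ (m + 1) - (w0 + x') ^ (m + 1) -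
        ((m + 1 : ℕ) : ℝ) • (w0 ^ m * (x - x'))) (A.e w2) +
      A.mH ((w0 + x) ^ (m + 1) - (w0 + x') ^ (m + 1)) h +
      A.mH ((w0 + x') ^ (m + 1) - w0 ^ (m + 1)) (h - h'))‖ ≤
      ((m + 2 : ℕ) : ℝ) * (Q * (‖A.e‖ * M) + L + L) * (s * d) := by
    rw [norm_smul, Real.norm_natCast, mul_assoc]
    refine mul_le_mul_of_nonneg_left ?_ (Nat.cast_nonneg _)
    calc _ ≤ Q * (‖A.e‖ * M) * (s * d) + L * (s * d) + L * (s * d) :=
          norm_add_le_of_le (norm_add_le_of_le k1 k2) k3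
      _ = _ := by ring
  have t2 : ‖(((m + 2 : ℕ) : ℝ) * (((m + 2 : ℕ) : ℝ) - 1)) •
      (A.mH ((w0 + x) ^ m - (w0 + x') ^ m - (m : ℝ) • (w0 ^ (m - 1) * (x - x')))
        (A.e (w1 ^ 2)) +
      (2 : ℝ) • (A.mH (((w0 + x) ^ m - (w0 + x') ^ m) * w1) (A.j y) +
        A.mH (((w0 + x') ^ m - w0 ^ m) * w1) (A.j (y - y'))) +
      A.mH ((w0 + x) ^ m - (w0 + x') ^ m) (A.B y y) +
      A.mH ((w0 + x') ^ m) (A.B (y - y') y + A.B y' (y - y')))‖ ≤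
      ((m + 2 : ℕ) : ℝ) * (((m + 2 : ℕ) : ℝ) - 1) * (Q' * (‖A.e‖ * (M * M)) +
      2 * (L' * M * ‖A.j‖ + L' * M * ‖A.j‖) + L' * M + 2 * N) * (s * d) := by
    rw [norm_smul, Real.norm_of_nonneg hcf, mul_assoc _ _ (s * d)]
    refine mul_le_mul_of_nonneg_left ?_ hcf
    calc _ ≤ Q' * (‖A.e‖ * (M * M)) * (s * d) +
          2 * (L' * M * ‖A.j‖ + L' * M * ‖A.j‖) * (s * d) + L' * M * (s * d) +
          2 * N * (s * d) :=
          norm_add_le_of_le (norm_add_le_of_le (norm_add_le_of_le k4 k56) k7) k8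
      _ = _ := by ring
  calc _ ≤ _ := norm_add_le_of_le t1 t2
    _ = _ := by ring

/-- DIF -/
theorem dif : DifStmt := by
  intro X Y H _ _ _ _ _ _ A n M hn hM0
  have hM : 0 ≤ M := hM0.le
  obtain ⟨m, rfl⟩ : ∃ m, n = m + 2 := ⟨n - 2, by omega⟩
  obtain ⟨C0, hC0, r0⟩ := pow_quad (X := X) M hM (m + 2)
  obtain ⟨C1, hC1, r1⟩ := rem1 A m M hM
  obtain ⟨C2, hC2, r2⟩ := rem2 A m M hM
  refine ⟨‖A.e‖ * C0 + ‖A.j‖ * C1 + C2 + 1, by positivity, ?_⟩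
  intro w0 w1 w2 x x' y y' h h' hw hx hx'
  set s : ℝ := (‖x‖ + ‖y‖ + ‖h‖) + (‖x'‖ + ‖y'‖ + ‖h'‖) with hs
  set d : ℝ := ‖x - x'‖ + ‖y - y'‖ + ‖h - h'‖ with hd
  have n0 := norm_nonneg w0
  have n1 := norm_nonneg w1
  have n2 := norm_nonneg w2
  have a0 := norm_nonneg x
  have a1 := norm_nonneg y
  have a2 := norm_nonneg h
  have b0 := norm_nonneg x'
  have b1 := norm_nonneg y'
  have b2 := norm_nonneg h'
  have c0 := norm_nonneg (x - x')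
  have c1 := norm_nonneg (y - y')
  have c2 := norm_nonneg (h - h')
  have hs0 : 0 ≤ s := by positivity
  have hd0 : 0 ≤ d := by positivity
  set G0 : X := ((m + 2 : ℕ) : ℝ) • w0 ^ (m + 1) with hG0
  set G1 : X := (((m + 2 : ℕ) : ℝ) * (((m + 2 : ℕ) : ℝ) - 1)) • (w0 ^ m * w1) with hG1
  set G2 : X := (((m + 2 : ℕ) : ℝ) * (((m + 2 : ℕ) : ℝ) - 1)) • (w0 ^ m * w2) +
        (((m + 2 : ℕ) : ℝ) * (((m + 2 : ℕ) : ℝ) - 1) * (((m + 2 : ℕ) : ℝ) - 2)) •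
          (w0 ^ (m - 1) * w1 ^ 2) with hG2
  have hg : gsz (m + 2) w0 w1 w2 = ‖G0‖ + 2 * ‖G1‖ + ‖G2‖ := rfl
  -- the first component
  have T0 : ‖A.e ((w0 + x) ^ (m + 2) - (w0 + x') ^ (m + 2))‖ ≤
      ‖G0‖ * ‖A.e (x - x')‖ + ‖A.e‖ * C0 * (s * d) := by
    have e : A.e ((w0 + x) ^ (m + 2) - (w0 + x') ^ (m + 2)) = A.mH G0 (A.e (x - x')) +
        A.e ((w0 + x) ^ (m + 2) - (w0 + x') ^ (m + 2) -
          ((m + 2 : ℕ) : ℝ) • (w0 ^ (m + 2 - 1) * (x - x'))) := by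
      rw [mH_e, hG0, smul_mul_assoc, ← map_add, show m + 2 - 1 = m + 1 by omega]
      congr 1
      abel
    rw [e]
    refine norm_add_le_of_le (A.nH _ _) ?_
    refine (A.e.le_opNorm _).trans ?_
    rw [mul_assoc]
    refine mul_le_mul_of_nonneg_left ?_ (norm_nonneg _)
    exact up hC0 c0 (by linarith) (by linarith) hs0
      (r0 w0 x x' (by linarith) (by linarith) (by linarith))
  -- the second component
  have T1 : ‖A.j (pw1 A (m + 2) (w0 + x) (A.i w1 + y) -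
      pw1 A (m + 2) (w0 + x') (A.i w1 + y'))‖ ≤
      (‖G0‖ * ‖A.j (y - y')‖ + ‖G1‖ * ‖A.e (x - x')‖) + ‖A.j‖ * C1 * (s * d) := by
    rw [id1, map_add, map_add, A.j_mY, A.j_mY, j_i]
    refine norm_add_le_of_le (norm_add_le_of_le (A.nH _ _) (A.nH _ _)) ?_
    refine (A.j.le_opNorm _).trans ?_
    rw [mul_assoc]
    refine mul_le_mul_of_nonneg_left ?_ (norm_nonneg _)
    exact r1 w0 w1 x x' y y' s d (by linarith) (by linarith) (by linarith) (by linarith)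
      (by linarith) (by linarith) (by linarith) (by linarith) (by linarith)
  -- the third component
  have T2 : ‖pw2 A (m + 2) (w0 + x) (A.i w1 + y) (A.e w2 + h) -
      pw2 A (m + 2) (w0 + x') (A.i w1 + y') (A.e w2 + h')‖ ≤
      (‖G0‖ * ‖h - h'‖ + 2 * (‖G1‖ * ‖A.j (y - y')‖) + ‖G2‖ * ‖A.e (x - x')‖) +
        C2 * (s * d) := by
    rw [id2]
    refine norm_add_le_of_le (norm_add_le_of_le (norm_add_le_of_le (A.nH _ _) ?_) (A.nH _ _)) ?_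
    · rw [norm_smul, Real.norm_ofNat]
      exact mul_le_mul_of_nonneg_left (A.nH _ _) zero_le_two
    · exact r2 w0 w1 w2 x x' y y' h h' s d (by linarith) (by linarith) (by linarith)
        (by linarith) (by linarith) (by linarith) (by linarith) (by linarith) (by linarith)
        (by linarith) (by linarith) (by linarith) (by linarith) (by linarith)
  rw [hg]
  have g0 := norm_nonneg G0
  have g1 := norm_nonneg G1
  have g2 := norm_nonneg G2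
  have q0 := norm_nonneg (A.e (x - x'))
  have q1 := norm_nonneg (A.j (y - y'))
  have hsd : 0 ≤ s * d := mul_nonneg hs0 hd0
  have key : (‖G0‖ * ‖A.e (x - x')‖) + (‖G0‖ * ‖A.j (y - y')‖ + ‖G1‖ * ‖A.e (x - x')‖) +
      (‖G0‖ * ‖h - h'‖ + 2 * (‖G1‖ * ‖A.j (y - y')‖) + ‖G2‖ * ‖A.e (x - x')‖) ≤
      (‖G0‖ + 2 * ‖G1‖ + ‖G2‖) * (‖A.e (x - x')‖ + ‖A.j (y - y')‖ + ‖h - h'‖) := by
    nlinarith [mul_nonneg g1 q0, mul_nonneg g1 c2, mul_nonneg g2 q1, mul_nonneg g2 c2,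
      mul_nonneg g1 q1]
  calc _ ≤ (‖G0‖ * ‖A.e (x - x')‖ + ‖A.e‖ * C0 * (s * d)) +
        ((‖G0‖ * ‖A.j (y - y')‖ + ‖G1‖ * ‖A.e (x - x')‖) + ‖A.j‖ * C1 * (s * d)) +
        ((‖G0‖ * ‖h - h'‖ + 2 * (‖G1‖ * ‖A.j (y - y')‖) + ‖G2‖ * ‖A.e (x - x')‖) +
        C2 * (s * d)) := add_le_add (add_le_add T0 T1) T2
    _ ≤ (‖G0‖ + 2 * ‖G1‖ + ‖G2‖) * (‖A.e (x - x')‖ + ‖A.j (y - y')‖ + ‖h - h'‖) +
        (‖A.e‖ * C0 + ‖A.j‖ * C1 + C2 + 1) * (s * d) := by nlinarith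
    _ = _ := by ring

end main

end

end Pool.Agent.BE01.H13
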